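import Mathlib
import Pool.Agent.H93RH.Defs

/-!
# Deformations of the Riemann hierarchy are not determined by the series `b_k`

For every `β ∈ ℂ[[u]]` the equations `u_{t_d} = u_x (u + ε β(u) u_x)^d / d!`, `d ≥ 0`, commute; they
form a deformation of the Riemann hierarchy with `b_k = 0` for all `k ≥ 2`.  The coefficient
`b_{(1,1)} = β` of `ε u_x²` in the first flow is not changed by Miura transformations in this
family, so different `β` give deformations which are not Miura equivalent.

Differential polynomials `DP = ℂ[[u]][u_1, u_2, …]` (the variable `X k` is `u_{k+1}`), the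
derivatives `pd k = ∂/∂u_k` (`u_0 = u`), the total derivative `dx`, the bracket `brk` and
`EDP = DP[[ε]]` are those of `Pool/Agent/H93RH/Defs.lean`.
-/

open MvPolynomial

namespace Pool.Agent.Results.MP_4b14b2_mp.NotDeterminedByLinearPart

open Pool.Agent.H93RH
open Finset.HasAntidiagonal (antidiagonal)

/-- `F ∈ Â_{u;d}`: the coefficient of `ε^k` in `F` is homogeneous of degree `k + d`
(`deg u_j = j`, `deg u = 0`). -/
def HasDeg (d : ℕ) (F : EDP) : Prop :=
  ∀ k, (PowerSeries.coeff k F).IsWeightedHomogeneous (fun j : ℕ => j + 1) (k + d)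

/-- The evolutionary equations `u_t = Q` and `u_s = R` commute: every coefficient of `ε^n` in
`∑_k (∂_x^k Q ∂R/∂u_k − ∂_x^k R ∂Q/∂u_k)` vanishes. -/
def EqCommute (Q R : EDP) : Prop :=
  ∀ n, ∑ ij ∈ antidiagonal n, brk (PowerSeries.coeff ij.1 Q) (PowerSeries.coeff ij.2 R) = 0

/-- A deformation of the Riemann hierarchy: pairwise commuting equations `u_{t_d} = Q_d`, `d ≥ 0`,
with `Q_d ∈ Â_{u;1}` and `Q_d = u^d/d! u_x + O(ε)`. -/
structure IsDeformation (Q : ℕ → EDP) : Prop where
  deg : ∀ d, HasDeg 1 (Q d)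
  lead : ∀ d, PowerSeries.coeff 0 (Q d) =
    C (PowerSeries.monomial d (((d.factorial : ℕ) : ℂ)⁻¹)) * X 0
  comm : ∀ d e, EqCommute (Q d) (Q e)

/-- `b_k`, the coefficient of `ε^{k-1} u_k` in the first flow `Q_1` (`u_k` is the variable
`X (k - 1)`). -/
noncomputable def bser (Q : ℕ → EDP) (k : ℕ) : PowerSeries ℂ :=
  coeff (Finsupp.single (k - 1) 1) (PowerSeries.coeff (k - 1) (Q 1))

/-- The derivative `∑_k ∂_x^k Q ∂V/∂u_k` of `V` along the equation `u_t = Q`. -/
noncomputable def evol (Q V : EDP) : EDP := PowerSeries.mk fun n =>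
  ∑ ij ∈ antidiagonal n, ∑ᶠ k : ℕ, dx^[k] (PowerSeries.coeff ij.1 Q) * pd k (PowerSeries.coeff ij.2 V)

/-- `c(u + W) = ∑_m c^{(m)}(u) W^m / m!`, for `W = O(ε)`. -/
noncomputable def substC (W : EDP) (c : PowerSeries ℂ) : EDP := PowerSeries.mk fun n =>
  ∑ m ∈ Finset.range (n + 1),
    C (PowerSeries.C (((m.factorial : ℕ) : ℂ)⁻¹) * (PowerSeries.derivative ℂ)^[m] c) *
      PowerSeries.coeff n (W ^ m)

/-- `∂_x` on `A_u[[ε]]`. -/
noncomputable def dxE (W : EDP) : EDP := PowerSeries.mk fun n => dx (PowerSeries.coeff n W)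

/-- `G(v, v_x, v_xx, …)` for `G ∈ A_u` and `v = u + W`, `W = O(ε)`. -/
noncomputable def substP (W : EDP) (G : DP) : EDP :=
  ∑ s ∈ G.support, substC W (coeff s G) *
    s.prod fun k m => (PowerSeries.C (X k) + dxE^[k + 1] W) ^ m

/-- `F(v, v_x, v_xx, …; ε)` for `F ∈ A_u[[ε]]` and `v = u + W`, `W = O(ε)`. -/
noncomputable def substE (W F : EDP) : EDP := PowerSeries.mk fun n =>
  ∑ ij ∈ antidiagonal n, PowerSeries.coeff ij.2 (substP W (PowerSeries.coeff ij.1 F))

/-- Miura equivalence: for some `v = u + W`, `W = ∑_{k ≥ 1} ε^k f_k` with `f_k ∈ A_{u;k}`, the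
equations `u_{t_d} = Q_d[u]` become `v_{t_d} = Q'_d[v]`. -/
def MiuraEquivalent (Q Q' : ℕ → EDP) : Prop :=
  ∃ W : EDP, PowerSeries.coeff 0 W = 0 ∧ HasDeg 0 W ∧ ∀ d, Q d + evol (Q d) W = substE W (Q' d)

/-- The equations `u_{t_d} = u_x (u + ε β(u) u_x)^d / d!`. -/
noncomputable def fam (β : PowerSeries ℂ) (d : ℕ) : EDP :=
  PowerSeries.C (C (PowerSeries.C (((d.factorial : ℕ) : ℂ)⁻¹)) * X 0) *
    (PowerSeries.C (C PowerSeries.X) + PowerSeries.X * PowerSeries.C (C β * X 0)) ^ d

/-! ### homogeneity -/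

theorem HasDeg.mul {a b : ℕ} {F G : EDP} (hF : HasDeg a F) (hG : HasDeg b G) :
    HasDeg (a + b) (F * G) := by
  intro k
  rw [PowerSeries.coeff_mul]
  apply MvPolynomial.IsWeightedHomogeneous.sum
  intro ij hij
  have h := (hF ij.1).mul (hG ij.2)
  rw [Finset.HasAntidiagonal.mem_antidiagonal] at hij
  rwa [show ij.1 + a + (ij.2 + b) = k + (a + b) by omega] at h

theorem HasDeg.pow {F : EDP} (hF : HasDeg 0 F) (n : ℕ) : HasDeg 0 (F ^ n) := by
  induction n with
  | zero =>
    intro k
    rw [pow_zero, PowerSeries.coeff_one]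
    split_ifs with h
    · subst h; exact isWeightedHomogeneous_one _ _
    · exact isWeightedHomogeneous_zero _ _ _
  | succ n ih => rw [pow_succ]; exact ih.mul hF

theorem hasDeg_w (β : PowerSeries ℂ) :
    HasDeg 0 (PowerSeries.C (C PowerSeries.X) + PowerSeries.X * PowerSeries.C (C β * X 0)) := by
  intro k
  rw [map_add]
  rcases k with _ | k
  · have e : PowerSeries.coeff 0 (PowerSeries.C (C PowerSeries.X : DP)) +
        PowerSeries.coeff 0 (PowerSeries.X * PowerSeries.C (C β * X 0 : DP)) = C PowerSeries.X := by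
      simp
    rw [e]
    exact isWeightedHomogeneous_C _ _
  · rw [PowerSeries.coeff_succ_X_mul, PowerSeries.coeff_C, PowerSeries.coeff_C,
      if_neg (Nat.succ_ne_zero k), zero_add]
    split_ifs with h
    · subst h
      have := (isWeightedHomogeneous_C (fun j : ℕ => j + 1) β).mul
        (isWeightedHomogeneous_X (PowerSeries ℂ) (fun j : ℕ => j + 1) 0)
      simpa using this
    · exact isWeightedHomogeneous_zero _ _ _

theorem fam_deg (β : PowerSeries ℂ) (d : ℕ) : HasDeg 1 (fam β d) := by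
  unfold fam
  have h1 : HasDeg 1 (PowerSeries.C (C (PowerSeries.C (((d.factorial : ℕ) : ℂ)⁻¹)) * X 0 : DP)) := by
    intro k
    rw [PowerSeries.coeff_C]
    split_ifs with h
    · subst h
      have := (isWeightedHomogeneous_C (fun j : ℕ => j + 1)
        (PowerSeries.C (((d.factorial : ℕ) : ℂ)⁻¹))).mul
        (isWeightedHomogeneous_X (PowerSeries ℂ) (fun j : ℕ => j + 1) 0)
      simpa using this
    · exact isWeightedHomogeneous_zero _ _ _
  have := h1.mul ((hasDeg_w β).pow d)
  simpa using this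

theorem fam_lead (β : PowerSeries ℂ) (d : ℕ) : PowerSeries.coeff 0 (fam β d) =
    C (PowerSeries.monomial d (((d.factorial : ℕ) : ℂ)⁻¹)) * X 0 := by
  unfold fam
  have h0 : PowerSeries.constantCoeff (PowerSeries.C (C PowerSeries.X) +
      PowerSeries.X * PowerSeries.C (C β * X 0) : EDP) = C PowerSeries.X := by
    rw [map_add, map_mul, PowerSeries.constantCoeff_X, zero_mul, add_zero,
      PowerSeries.constantCoeff_C]
  rw [PowerSeries.coeff_zero_eq_constantCoeff_apply, map_mul, map_pow, h0,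
    PowerSeries.constantCoeff_C, ← C_pow, mul_right_comm, ← C_mul]
  congr 2
  ext n
  rw [PowerSeries.coeff_C_mul, PowerSeries.coeff_X_pow, PowerSeries.coeff_monomial]
  split_ifs <;> simp

/-! ### commutation -/

theorem dU_mul (F G : DP) : dU (F * G) = dU F * G + F * dU G := by
  classical
  ext1 s
  rw [coeff_dU, coeff_mul, map_sum, coeff_add, coeff_mul, coeff_mul, ← Finset.sum_add_distrib]
  refine Finset.sum_congr rfl fun ij _ => ?_
  rw [Derivation.leibniz, coeff_dU, coeff_dU]
  simp only [smul_eq_mul]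
  ring

theorem pd_mul (k : ℕ) (F G : DP) : pd k (F * G) = pd k F * G + F * pd k G := by
  cases k with
  | zero => exact dU_mul F G
  | succ k =>
    show pderiv k (F * G) = pderiv k F * G + F * pderiv k G
    rw [Derivation.leibniz]
    simp only [smul_eq_mul]
    ring

theorem pd_zero' (k : ℕ) : pd k (0 : DP) = 0 := by
  have := pd_add k 0 0
  simpa using this

/-- `∂/∂u_k` on `A_u[[ε]]`. -/
noncomputable def pdE (k : ℕ) (F : EDP) : EDP := PowerSeries.mk fun n => pd k (PowerSeries.coeff n F)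

theorem coeff_pdE (k n : ℕ) (F : EDP) : PowerSeries.coeff n (pdE k F) = pd k (PowerSeries.coeff n F) := by
  simp [pdE]

theorem pd_sum' {α : Type*} (k : ℕ) (t : Finset α) (f : α → DP) :
    pd k (∑ i ∈ t, f i) = ∑ i ∈ t, pd k (f i) := by
  classical
  induction t using Finset.induction_on with
  | empty => simpa using pd_zero' k
  | insert a s ha ih => rw [Finset.sum_insert ha, Finset.sum_insert ha, pd_add, ih]

theorem pdE_mul (k : ℕ) (F G : EDP) : pdE k (F * G) = pdE k F * G + F * pdE k G := by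
  ext1 n
  rw [coeff_pdE, PowerSeries.coeff_mul, pd_sum', map_add, PowerSeries.coeff_mul,
    PowerSeries.coeff_mul, ← Finset.sum_add_distrib]
  refine Finset.sum_congr rfl fun ij _ => ?_
  rw [pd_mul, coeff_pdE, coeff_pdE]

theorem pdE_add (k : ℕ) (F G : EDP) : pdE k (F + G) = pdE k F + pdE k G := by
  ext1 n
  rw [coeff_pdE, map_add, pd_add, map_add, coeff_pdE, coeff_pdE]

theorem pdE_C (k : ℕ) (G : DP) : pdE k (PowerSeries.C G) = PowerSeries.C (pd k G) := by
  ext1 n
  rw [coeff_pdE, PowerSeries.coeff_C, PowerSeries.coeff_C]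
  split_ifs
  · rfl
  · exact pd_zero' k

theorem pdE_X (k : ℕ) : pdE k (PowerSeries.X : EDP) = 0 := by
  ext1 n
  rw [coeff_pdE, PowerSeries.coeff_X]
  split_ifs
  · have h1 : (1 : DP) = C 1 := (map_one C).symm
    rw [h1, pd_C]
    split_ifs <;> simp
  · rw [pd_zero']; simp

theorem pdE_pow (k : ℕ) (W : EDP) (n : ℕ) : ∃ A : EDP, ∀ j, pdE j (W ^ n) = A * pdE j W := by
  refine ⟨(n : EDP) * W ^ (n - 1), fun j => ?_⟩
  induction n with
  | zero =>
    rw [pow_zero]
    have : (1 : EDP) = PowerSeries.C (C 1) := by simp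
    rw [this, pdE_C, pd_C]
    simp
  | succ n ih =>
    rw [pow_succ, pdE_mul, ih]
    rcases n with _ | n
    · simp
    · simp only [Nat.add_sub_cancel, Nat.cast_add, Nat.cast_one]
      ring

/-- functions of `u` and `u_x` only -/
def First (F : EDP) : Prop := ∀ k, 2 ≤ k → pdE k F = 0

theorem First.mul {F G : EDP} (hF : First F) (hG : First G) : First (F * G) := by
  intro k hk
  rw [pdE_mul, hF k hk, hG k hk]; ring
theorem First.add {F G : EDP} (hF : First F) (hG : First G) : First (F + G) := by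
  intro k hk
  rw [pdE_add, hF k hk, hG k hk]; ring
theorem first_X : First (PowerSeries.X : EDP) := fun k _ => pdE_X k
theorem first_Cc (a : PowerSeries ℂ) : First (PowerSeries.C (C a)) := by
  intro k hk
  rw [pdE_C, pd_C, if_neg (by omega), map_zero]
theorem pd_CX0 (k : ℕ) (a : PowerSeries ℂ) : pd k (C a * X 0 : DP) =
    if k = 0 then C (PowerSeries.derivative ℂ a) * X 0 else if k = 1 then C a else 0 := by
  rw [pd_mul_X, pd_C]
  rcases k with _ | _ | k <;> simp
theorem first_CX (a : PowerSeries ℂ) : First (PowerSeries.C (C a * X 0)) := by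
  intro k hk
  rw [pdE_C, pd_CX0, if_neg (by omega), if_neg (by omega), map_zero]
theorem First.pow {F : EDP} (hF : First F) (n : ℕ) : First (F ^ n) := by
  intro k hk
  obtain ⟨A, hA⟩ := pdE_pow k F n
  rw [hA, hF k hk, mul_zero]

theorem brk_first (Q R : DP) (hQ : ∀ k, 2 ≤ k → pd k Q = 0) (hR : ∀ k, 2 ≤ k → pd k R = 0) :
    brk Q R = Q * pd 0 R - R * pd 0 Q + X 0 * (pd 0 Q * pd 1 R - pd 0 R * pd 1 Q) := by
  rw [brk_eq, EE_sum _ R 2 hR, EE_sum _ Q 2 hQ]
  have hdQ : dx Q = X 0 * pd 0 Q + X 1 * pd 1 Q := by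
    rw [dx_eq, EE_sum _ Q 2 hQ, Finset.sum_range_succ, Finset.sum_range_one]
  have hdR : dx R = X 0 * pd 0 R + X 1 * pd 1 R := by
    rw [dx_eq, EE_sum _ R 2 hR, Finset.sum_range_succ, Finset.sum_range_one]
  rw [Finset.sum_range_succ, Finset.sum_range_one, Finset.sum_range_succ, Finset.sum_range_one,
    Function.iterate_zero, id, id, Function.iterate_one, hdQ, hdR]
  ring

theorem comm_first (Q R : EDP) (hQ : First Q) (hR : First R)
    (h : Q * pdE 0 R - R * pdE 0 Q +
      PowerSeries.C (X 0) * (pdE 0 Q * pdE 1 R - pdE 0 R * pdE 1 Q) = 0) : EqCommute Q R := by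
  intro n
  have h1 := congrArg (PowerSeries.coeff n) h
  rw [map_zero, map_add, map_sub, PowerSeries.coeff_C_mul, map_sub, mul_comm R,
    mul_comm (pdE 0 R), PowerSeries.coeff_mul, PowerSeries.coeff_mul, PowerSeries.coeff_mul,
    PowerSeries.coeff_mul, ← Finset.sum_sub_distrib, ← Finset.sum_sub_distrib, Finset.mul_sum,
    ← Finset.sum_add_distrib] at h1
  rw [← h1]
  refine Finset.sum_congr rfl fun ij _ => ?_
  rw [brk_first _ _ (fun k hk => ?_) (fun k hk => ?_)]
  · simp only [coeff_pdE]
    ring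
  · have := congrArg (PowerSeries.coeff ij.1) (hQ k hk)
    rwa [coeff_pdE, map_zero] at this
  · have := congrArg (PowerSeries.coeff ij.2) (hR k hk)
    rwa [coeff_pdE, map_zero] at this

theorem fam_comm (β : PowerSeries ℂ) (d e : ℕ) : EqCommute (fam β d) (fam β e) := by
  set w : EDP := PowerSeries.C (C PowerSeries.X) + PowerSeries.X * PowerSeries.C (C β * X 0) with hw
  have fw : First w := (first_Cc _).add (first_X.mul (first_CX _))
  have ff : ∀ n, First (fam β n) := fun n => (first_CX _).mul (fw.pow n)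
  apply comm_first _ _ (ff d) (ff e)
  obtain ⟨A, hA⟩ := pdE_pow 0 w d
  obtain ⟨B, hB⟩ := pdE_pow 0 w e
  have key : ∀ n (A : EDP), (∀ j, pdE j (w ^ n) = A * pdE j w) →
      fam β n = PowerSeries.C (C (PowerSeries.C (((n.factorial : ℕ) : ℂ)⁻¹))) *
        PowerSeries.C (X 0) * w ^ n ∧
      pdE 0 (fam β n) = PowerSeries.C (C (PowerSeries.C (((n.factorial : ℕ) : ℂ)⁻¹))) *
        PowerSeries.C (X 0) * (A * pdE 0 w) ∧
      pdE 1 (fam β n) = PowerSeries.C (C (PowerSeries.C (((n.factorial : ℕ) : ℂ)⁻¹))) *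
        (w ^ n + PowerSeries.C (X 0) * (A * pdE 1 w)) := by
    intro n A hA
    have e0 : fam β n = PowerSeries.C (C (PowerSeries.C (((n.factorial : ℕ) : ℂ)⁻¹)) * X 0) * w ^ n := rfl
    refine ⟨?_, ?_, ?_⟩
    · rw [e0, map_mul]
    · rw [e0, pdE_mul, pdE_C, pd_CX0, if_pos rfl, hA, map_mul]
      simp
    · rw [e0, pdE_mul, pdE_C, pd_CX0, if_neg one_ne_zero, if_pos rfl, hA, map_mul]
      ring
  obtain ⟨h1, h2, h3⟩ := key d A hA
  obtain ⟨h4, h5, h6⟩ := key e B hB
  rw [h2, h3, h5, h6, h1, h4]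
  ring

theorem fam_def (β : PowerSeries ℂ) : IsDeformation (fam β) :=
  ⟨fam_deg β, fam_lead β, fam_comm β⟩

/-! ### the first flow -/

theorem fam_one (β : PowerSeries ℂ) : fam β 1 = PowerSeries.C (monomial (Finsupp.single 0 1) PowerSeries.X) +
    PowerSeries.X * PowerSeries.C (monomial (Finsupp.single 0 2) β) := by
  have e1 : (monomial (Finsupp.single 0 1) PowerSeries.X : DP) = C PowerSeries.X * X 0 := by
    rw [C_mul_X_eq_monomial]
  have e2 : (monomial (Finsupp.single 0 2) β : DP) = C β * X 0 ^ 2 := by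
    rw [C_mul_X_pow_eq_monomial]
  rw [e1, e2]
  unfold fam
  simp only [Nat.factorial_one, Nat.cast_one, inv_one, map_one, one_mul, pow_one, map_mul, map_pow]
  ring

theorem coeff0_fam (β : PowerSeries ℂ) :
    PowerSeries.coeff 0 (fam β 1) = monomial (Finsupp.single 0 1) PowerSeries.X := by
  rw [fam_one]; simp

theorem coeff1_fam (β : PowerSeries ℂ) :
    PowerSeries.coeff 1 (fam β 1) = monomial (Finsupp.single 0 2) β := by
  rw [fam_one, map_add, PowerSeries.coeff_C, if_neg one_ne_zero, zero_add]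
  rw [show (1 : ℕ) = 0 + 1 from rfl, PowerSeries.coeff_succ_X_mul, PowerSeries.coeff_C, if_pos rfl]

theorem coeff2_fam (β : PowerSeries ℂ) (k : ℕ) : PowerSeries.coeff (k + 2) (fam β 1) = 0 := by
  rw [fam_one, map_add, PowerSeries.coeff_C, if_neg (by omega), zero_add,
    show k + 2 = (k + 1) + 1 from rfl, PowerSeries.coeff_succ_X_mul, PowerSeries.coeff_C,
    if_neg (by omega)]

theorem fam_b (β : PowerSeries ℂ) (k : ℕ) (hk : 2 ≤ k) : bser (fam β) k = 0 := by
  classical
  unfold bser
  obtain ⟨k, rfl⟩ : ∃ j, k = j + 2 := ⟨k - 2, by omega⟩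
  rcases k with _ | k
  · show coeff (Finsupp.single 1 1) (PowerSeries.coeff 1 (fam β 1)) = 0
    rw [coeff1_fam, coeff_monomial, if_neg]
    intro h
    have := DFunLike.congr_fun h 1
    simp at this
  · rw [show k + 1 + 2 - 1 = k + 2 by omega, coeff2_fam, coeff_zero]

/-! ### the invariant -/

theorem weight_one (f : DP) (hf : f.IsWeightedHomogeneous (fun j : ℕ => j + 1) 1) :
    ∃ a : PowerSeries ℂ, f = C a * X 0 := by
  classical
  refine ⟨coeff (Finsupp.single 0 1) f, ?_⟩
  ext1 s
  rw [coeff_C_mul, coeff_X]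
  by_cases hs : coeff s f = 0
  · split_ifs with h
    · rw [h]; simp
    · rw [hs]; simp
  · have h1 := hf hs
    rw [Finsupp.weight_apply] at h1
    have h2 : s = Finsupp.single 0 1 := by
      have hz : ∀ k, 1 ≤ k → s k = 0 := by
        intro k hk
        by_contra hne
        have hk2 : k ∈ s.support := Finsupp.mem_support_iff.2 hne
        have h3 : s k • (k + 1) ≤ s.sum fun i c => c • (i + 1) :=
          Finset.single_le_sum (f := fun i => s i • (i + 1)) (fun _ _ => Nat.zero_le _) hk2
        rw [h1] at h3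
        have h4 : 1 ≤ s k := Nat.one_le_iff_ne_zero.2 hne
        have h5 : 1 * 2 ≤ s k * (k + 1) := Nat.mul_le_mul h4 (by omega)
        rw [smul_eq_mul] at h3
        omega
      have hs0 : s = Finsupp.single 0 (s 0) := by
        ext k
        rcases k with _ | k
        · simp
        · rw [hz (k + 1) (by omega)]; simp
      rw [hs0, Finsupp.sum_single_index (by simp)] at h1
      have h6 : s 0 = 1 := by simpa using h1
      rw [hs0, h6]
    rw [h2, if_pos rfl, mul_one]

theorem substP_monomial (W : EDP) (s : ℕ →₀ ℕ) (c : PowerSeries ℂ) :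
    substP W (monomial s c) = substC W c *
      s.prod fun k m => (PowerSeries.C (X k) + dxE^[k + 1] W) ^ m := by
  classical
  unfold substP
  by_cases hc : c = 0
  · subst hc
    have h0 : substC W 0 = 0 := by
      unfold substC
      ext1 n
      have : ∀ m, (⇑(PowerSeries.derivative ℂ))^[m] (0 : PowerSeries ℂ) = 0 := by
        intro m
        induction m with
        | zero => rfl
        | succ m ih => rw [Function.iterate_succ_apply', ih, map_zero]
      simp [this]
    simp [h0]
  · rw [support_monomial, if_neg hc, Finset.sum_singleton, coeff_monomial, if_pos rfl]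

theorem coeff0_substC (W : EDP) (c : PowerSeries ℂ) :
    PowerSeries.coeff 0 (substC W c) = C c := by
  unfold substC
  rw [PowerSeries.coeff_mk]
  simp

theorem coeff1_substC (W : EDP) (c : PowerSeries ℂ) :
    PowerSeries.coeff 1 (substC W c) = C (PowerSeries.derivative ℂ c) * PowerSeries.coeff 1 W := by
  unfold substC
  rw [PowerSeries.coeff_mk, Finset.sum_range_succ, Finset.sum_range_one]
  simp [PowerSeries.coeff_one]

theorem inv (β β' : PowerSeries ℂ) (h : MiuraEquivalent (fam β) (fam β')) : β = β' := by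
  classical
  obtain ⟨W, hW0, hW, h⟩ := h
  have h1 := congrArg (PowerSeries.coeff 1) (h 1)
  have hanti : (antidiagonal 1 : Finset (ℕ × ℕ)) = {(0, 1), (1, 0)} := rfl
  obtain ⟨f, hf⟩ := weight_one (PowerSeries.coeff 1 W) (by simpa using hW 1)
  have e1 : (monomial (Finsupp.single 0 1) PowerSeries.X : DP) = C PowerSeries.X * X 0 := by
    rw [C_mul_X_eq_monomial]
  have e2 : ∀ b : PowerSeries ℂ, (monomial (Finsupp.single 0 2) b : DP) = C b * X 0 ^ 2 := by
    intro b; rw [C_mul_X_pow_eq_monomial]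
  have dCX : ∀ a : PowerSeries ℂ, dx (C a * X 0 : DP) =
      X 0 * C (PowerSeries.derivative ℂ a) * X 0 + C a * X 1 := by
    intro a; rw [dx_mul_X, dx_C]
  -- left-hand side
  have hev : PowerSeries.coeff 1 (evol (fam β 1) W) =
      (C PowerSeries.X * X 0) * C (PowerSeries.derivative ℂ f) * X 0 +
        C f * (X 0 * X 0 + C PowerSeries.X * X 1) := by
    unfold evol
    rw [PowerSeries.coeff_mk, hanti, Finset.sum_insert (by simp), Finset.sum_singleton, coeff0_fam,
      hW0, hf]
    have hz : ∑ᶠ k : ℕ, dx^[k] (PowerSeries.coeff 1 (fam β 1)) * pd k (0 : DP) = 0 := by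
      simp only [pd_zero', mul_zero, finsum_zero]
    rw [hz, add_zero]
    show EE (fun k => dx^[k] (monomial (Finsupp.single 0 1) PowerSeries.X)) (C f * X 0) = _
    rw [EE_mul_X, EE_C, Function.iterate_zero, id, zero_add, Function.iterate_one, e1, dCX]
    have : PowerSeries.derivative ℂ (PowerSeries.X : PowerSeries ℂ) = 1 := by simp
    rw [this, map_one, mul_one]
  -- right-hand side
  have hdx0 : PowerSeries.coeff 0 (dxE W) = 0 := by
    unfold dxE
    rw [PowerSeries.coeff_mk, hW0]
    have := dx_add 0 0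
    simpa using this
  have hdx1 : PowerSeries.coeff 1 (dxE W) = X 0 * C (PowerSeries.derivative ℂ f) * X 0 + C f * X 1 := by
    unfold dxE
    rw [PowerSeries.coeff_mk, hf, dCX]
  have hs : PowerSeries.coeff 1 (substE W (fam β' 1)) =
      C PowerSeries.X * (X 0 * C (PowerSeries.derivative ℂ f) * X 0 + C f * X 1) +
        (C f * X 0) * X 0 + C β' * X 0 ^ 2 := by
    unfold substE
    rw [PowerSeries.coeff_mk, hanti, Finset.sum_insert (by simp), Finset.sum_singleton, coeff0_fam,
      coeff1_fam, substP_monomial, substP_monomial, Finsupp.prod_single_index (by simp),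
      Finsupp.prod_single_index (by simp)]
    congr 1
    · rw [PowerSeries.coeff_mul, hanti, Finset.sum_insert (by simp), Finset.sum_singleton,
        coeff0_substC, coeff1_substC W, hf, pow_one, zero_add, Function.iterate_one]
      have : PowerSeries.derivative ℂ (PowerSeries.X : PowerSeries ℂ) = 1 := by simp
      rw [this, map_one, one_mul, map_add, map_add, PowerSeries.coeff_C, if_neg one_ne_zero,
        zero_add, hdx1, hdx0, add_zero, PowerSeries.coeff_C, if_pos rfl]
    · rw [PowerSeries.coeff_zero_eq_constantCoeff_apply, map_mul, map_pow, map_add,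
        ← PowerSeries.coeff_zero_eq_constantCoeff_apply, ← PowerSeries.coeff_zero_eq_constantCoeff_apply,
        ← PowerSeries.coeff_zero_eq_constantCoeff_apply, coeff0_substC, zero_add,
        Function.iterate_one, hdx0, add_zero, PowerSeries.coeff_C, if_pos rfl]
  rw [map_add, hev, hs, coeff1_fam, e2] at h1
  have h2 : (C β * X 0 ^ 2 : DP) = C β' * X 0 ^ 2 := by
    linear_combination h1
  have h3 := congrArg (coeff (Finsupp.single 0 2)) h2
  rw [← e2, ← e2, coeff_monomial, coeff_monomial, if_pos rfl, if_pos rfl] at h3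
  exact h3

/-- **Disproof of Q1.** Two deformations of the Riemann hierarchy with `b_k = b'_k` for all `k ≥ 2`
need not be Miura equivalent.  More precisely, for every `β ∈ ℂ[[u]]` the equations
`u_{t_d} = u_x (u + ε β(u) u_x)^d / d!` form a deformation with `b_k = 0` for all `k ≥ 2`, and for
different `β` they are not Miura equivalent (`β = 0` is the Riemann hierarchy itself). -/
theorem result :
    (¬ ∀ Q Q' : ℕ → EDP, IsDeformation Q → IsDeformation Q' →
      (∀ k, 2 ≤ k → bser Q k = bser Q' k) → MiuraEquivalent Q Q') ∧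
    (∀ β : PowerSeries ℂ, IsDeformation (fam β) ∧ ∀ k, 2 ≤ k → bser (fam β) k = 0) ∧
    (∀ β β' : PowerSeries ℂ, MiuraEquivalent (fam β) (fam β') → β = β') := by
  refine ⟨?_, fun β => ⟨fam_def β, fam_b β⟩, inv⟩
  intro h
  have h1 := inv 1 0 (h (fam 1) (fam 0) (fam_def 1) (fam_def 0) fun k hk => by
    rw [fam_b 1 k hk, fam_b 0 k hk])
  exact one_ne_zero h1

end Pool.Agent.Results.MP_4b14b2_mp.NotDeterminedByLinearPart
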